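import Pool.Agent.E8helper61.EF.Stm3

/-!
# Project EF (MP_4c8542_co), piece NUMC
-/

set_option autoImplicit false

namespace Pool.Agent.E8helper10.EF

open Pool.Agent.E8helper61.EF

lemma one_add_pow_le {x : ℝ} (hx : 0 ≤ x) (d : ℕ) : (1 + x) ^ d ≤ Real.exp (d * x) := by
  rw [Real.exp_nat_mul]
  apply pow_le_pow_left₀ (by linarith)
  linarith [Real.add_one_le_exp x]

lemma exp_eighth : Real.exp (1 / 8) ≤ 1.134 := by
  have h := Real.exp_one_lt_d9
  have h2 : Real.exp (1 / 8) ^ 8 = Real.exp 1 := by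
    rw [← Real.exp_nat_mul]
    norm_num
  by_contra hc
  push Not at hc
  have h3 := pow_lt_pow_left₀ hc (by norm_num) (n := 8) (by norm_num)
  rw [h2] at h3
  norm_num at h3 h
  linarith

theorem numC : NumCStatement := by
  intro k d hk hkd hd
  refine ⟨(k + 1) / 2, by omega, by omega, ?_⟩
  rcases lt_or_ge k 8 with hk8 | hk8
  · have h1 : k = 6 ∨ k = 7 := by omega
    rcases h1 with rfl | rfl
    · norm_num at hd
      interval_cases d <;> norm_num
    · norm_num at hd
      interval_cases d <;> norm_num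
  · obtain ⟨q, hq⟩ : ∃ q, q = k / 2 := ⟨_, rfl⟩
    rw [← hq] at hd
    have e1 : k - (k + 1) / 2 = q := by omega
    rw [e1]
    have hT : (0 : ℝ) < 2 ^ q := by positivity
    have hdT : (d : ℝ) ≤ 2 ^ q := by exact_mod_cast hd
    have hd0 : (0 : ℝ) ≤ d := Nat.cast_nonneg d
    -- the first term
    have a1 : (1 + 1 / 2 ^ (k - 1) : ℝ) ^ d ≤ 1.134 := by
      refine (one_add_pow_le (by positivity) d).trans (le_trans ?_ exp_eighth)
      apply Real.exp_le_exp.2
      have h2 : (2 : ℝ) ^ q * 8 ≤ 2 ^ (k - 1) := by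
        have : (2 : ℝ) ^ q * 8 = 2 ^ (q + 3) := by rw [pow_add]; norm_num
        rw [this]
        exact pow_le_pow_right₀ (by norm_num) (by omega)
      rw [mul_one_div, div_le_div_iff₀ (by positivity) (by norm_num)]
      linarith
    have a2 : (1 + 1 / 2 ^ q : ℝ) ^ d ≤ 2.7182818286 := by
      refine (one_add_pow_le (by positivity) d).trans (le_trans ?_ Real.exp_one_lt_d9.le)
      apply Real.exp_le_exp.2
      rw [mul_one_div, div_le_one hT]
      exact hdT
    have a3 : ((d / k : ℕ) : ℝ) ≤ 2 ^ q / 8 := by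
      refine Nat.cast_div_le.trans ?_
      have hk' : (8 : ℝ) ≤ k := by exact_mod_cast hk8
      rw [div_le_div_iff₀ (by linarith) (by norm_num)]
      nlinarith
    have a4 : (1 / 2 : ℝ) ^ ((k + 1) / 2) ≤ 1 / 2 ^ q := by
      rw [one_div_pow]
      apply one_div_le_one_div_of_le hT
      exact pow_le_pow_right₀ (by norm_num) (by omega)
    have a5 : ((d / k : ℕ) : ℝ) * ((1 / 2) ^ ((k + 1) / 2) * (1 + 1 / 2 ^ q) ^ d) ≤
        2 ^ q / 8 * (1 / 2 ^ q * 2.7182818286) := by
      apply mul_le_mul a3 _ (by positivity) (by positivity)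
      exact mul_le_mul a4 a2 (by positivity) (by positivity)
    have a6 : (2 : ℝ) ^ q / 8 * (1 / 2 ^ q * 2.7182818286) = 2.7182818286 / 8 := by
      field_simp
    rw [a6] at a5
    norm_num at a1 a5 ⊢
    linarith

end Pool.Agent.E8helper10.EF
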